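import Pool.Agent.Y791.MP.Lim
import Pool.Agent.Y791.MS.Elim
import Pool.Agent.Y791.MS.Z0
import Pool.Agent.Y791.MS.Ser

set_option autoImplicit false

/-!
# Graded motivic stabilization fails for every `n` which is not a multiple of `k`

`p` is any prime number and `K` an algebraic closure of `𝔽_p`; `𝒰₁` is a point, `𝒰_k` the affine
line (`k ≥ 2`), all other `𝒰ᵢ` are empty; `r ≥ 1` and `n ≥ 1` are arbitrary with `k ∤ n` and
`r n ≥ 2`; the ring is the completed Grothendieck ring `Mhat` and `μ` the identity.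

* `Xd k d` is the class of `𝒳_d = ⊔_{m ≤ d/k} Sym^m 𝔸¹`; it is a unit for every `d`.
* `Zd k n d` is the class of `𝒵_n^d`, `d = (d₁, …, d_r)`; its pieces `Zset k n d m` are
  constructible.
* The displayed value `1 + ∑_{j ≥ 1} a_j L^{-r dim 𝒳_{jn}}` exists (`dim 𝒳_d = ⌊d/k⌋`): it is
  `(1 - L^{-r ⌊n/k⌋}) (1 - L^{1 - r n})`.
* The ratios `[𝒵_n^d] / [𝒳_d]` have no limit, even if all the `d_i` are equal.
-/

open Filter Topology
open Pool.Agent.Y791.MP (Base K Constr Mhat LL Xd Zd Zset)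

namespace Pool.Agent.Results.MP_6cd1fc_ag.AllPowerfree

theorem result (p : ℕ) (hp : p.Prime) (k n r : ℕ) (hk : 2 ≤ k) (hn : 1 ≤ n) (hr : 1 ≤ r)
    (hkn : ¬ k ∣ n) (hrn : 2 ≤ r * n) :
    letI : Base := { p := p, prime := ⟨hp⟩ }
    (∀ d, IsUnit (Xd k d)) ∧
    (∃ a : ℕ → Mhat, PowerSeries.mk (Xd k) * PowerSeries.mk a = 1 ∧
      HasSum (fun j => a j * Ring.inverse LL ^ (r * (j * n / k)))
        ((1 - Ring.inverse LL ^ (r * (n / k))) * (1 - LL * Ring.inverse LL ^ (r * n)))) ∧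
    (∀ d m : Fin r → ℕ, Constr (Zset k n d m)) ∧
    ∀ t : Mhat,
      (¬ Tendsto (fun d : Fin r → ℕ => Zd k n d * Ring.inverse (∏ i, Xd k (d i))) atTop (𝓝 t)) ∧
      ¬ Tendsto (fun d : ℕ => Zd k n (fun _ : Fin r => d) * Ring.inverse (∏ _i : Fin r, Xd k d))
        atTop (𝓝 t) := by
  letI : Base := { p := p, prime := ⟨hp⟩ }
  obtain ⟨s, rfl⟩ : ∃ s, r = s + 1 := ⟨r - 1, by omega⟩
  have hE := Pool.Agent.Y791.MS.elim
  have hH := Pool.Agent.Y791.MS.has
  have hZ := Pool.Agent.Y791.MS.z0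
  refine ⟨Pool.Agent.Y791.MP.isUnit_Xd k,
    ⟨Pool.Agent.Y791.MS.co LL k, ?_, Pool.Agent.Y791.MS.sm Mhat LL _ k n (s + 1) hk⟩,
    fun d m => Pool.Agent.Y791.MP.constr_Zset hE hH hn k d m, fun t => ?_⟩
  · have h := Pool.Agent.Y791.MS.ps Mhat LL k hk
    have h1 : (fun d => ∑ m ∈ Finset.range (d / k + 1), LL ^ m) = Xd k := by
      funext d
      unfold Pool.Agent.Y791.MP.Xd
      exact Finset.sum_congr rfl fun m _ => (Pool.Agent.Y791.MP.cl_aff' m).symm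
    rwa [h1] at h
  · have h := Pool.Agent.Y791.MP.no_limit hE hH hZ hk hn hkn hrn t
    refine ⟨fun h1 => h (h1.comp ?_), h⟩
    exact tendsto_atTop_atTop.2 fun b => ⟨∑ i, b i, fun D hD i =>
      (Finset.single_le_sum (fun _ _ => Nat.zero_le _) (Finset.mem_univ i)).trans hD⟩

end Pool.Agent.Results.MP_6cd1fc_ag.AllPowerfree
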